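import Mathlib
import Pool.Agent.helper23.SUB.Mertens
import Pool.Agent.helper43.NO.Defs

/-!
Module NO-U1: moments of the divisor function,
`∑_{m ≤ x} τ(m)^s ≤ C x (log x)^(2^s-1)` for real `s ≥ 1`.
-/

set_option autoImplicit false

open Finset ArithmeticFunction

open scoped ArithmeticFunction.Moebius ArithmeticFunction.zeta

namespace Pool.Agent.helper38.NO

/-- `τ^s` as an arithmetic function. -/
noncomputable def ts (s : ℝ) (hs : 1 ≤ s) : ArithmeticFunction ℝ :=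
  ⟨fun n => (n.divisors.card : ℝ) ^ s, by
    have hs0 : s ≠ 0 := by linarith
    simp [Real.zero_rpow hs0]⟩

theorem ts_apply (s : ℝ) (hs : 1 ≤ s) (n : ℕ) : ts s hs n = (n.divisors.card : ℝ) ^ s := rfl

theorem ts_mult (s : ℝ) (hs : 1 ≤ s) : (ts s hs).IsMultiplicative := by
  refine ⟨by simp [ts_apply], ?_⟩
  intro m n hmn
  rw [ts_apply, ts_apply, ts_apply, Nat.Coprime.card_divisors_mul hmn, Nat.cast_mul,
    Real.mul_rpow (by positivity) (by positivity)]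

/-- the Dirichlet quotient `g = τ^s * μ`. -/
noncomputable def gs (s : ℝ) (hs : 1 ≤ s) : ArithmeticFunction ℝ :=
  ts s hs * ((μ : ArithmeticFunction ℤ) : ArithmeticFunction ℝ)

theorem gs_mult (s : ℝ) (hs : 1 ≤ s) : (gs s hs).IsMultiplicative :=
  (ts_mult s hs).mul isMultiplicative_moebius.intCast

theorem gs_zeta (s : ℝ) (hs : 1 ≤ s) : gs s hs * (ζ : ArithmeticFunction ℝ) = ts s hs := by
  rw [gs, mul_assoc, coe_moebius_mul_coe_zeta, mul_one]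

theorem sum_gs_pow (s : ℝ) (hs : 1 ≤ s) (p : ℕ) (hp : p.Prime) (k : ℕ) :
    ∑ i ∈ range (k + 1), gs s hs (p ^ i) = ((k : ℝ) + 1) ^ s := by
  have h1 : (gs s hs * (ζ : ArithmeticFunction ℝ)) (p ^ k) = ts s hs (p ^ k) := by
    rw [gs_zeta]
  rw [coe_mul_zeta_apply, Nat.sum_divisors_prime_pow hp, ts_apply, Nat.divisors_prime_pow hp,
    card_map, card_range] at h1
  rw [h1]
  push_cast
  ring

theorem gs_pow_zero (s : ℝ) (hs : 1 ≤ s) (p : ℕ) : gs s hs (p ^ 0) = 1 := by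
  rw [pow_zero]
  exact (gs_mult s hs).1

theorem gs_pow_succ (s : ℝ) (hs : 1 ≤ s) (p : ℕ) (hp : p.Prime) (k : ℕ) :
    gs s hs (p ^ (k + 1)) = ((k : ℝ) + 2) ^ s - ((k : ℝ) + 1) ^ s := by
  have h1 := sum_gs_pow s hs p hp (k + 1)
  rw [sum_range_succ, sum_gs_pow s hs p hp k] at h1
  push_cast at h1
  have h2 : (k : ℝ) + 1 + 1 = k + 2 := by ring
  rw [h2] at h1
  linarith

theorem gs_pow_nonneg (s : ℝ) (hs : 1 ≤ s) (p : ℕ) (hp : p.Prime) (k : ℕ) :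
    0 ≤ gs s hs (p ^ k) := by
  rcases k with _ | k
  · rw [gs_pow_zero]; norm_num
  · rw [gs_pow_succ s hs p hp k, sub_nonneg]
    exact Real.rpow_le_rpow (by positivity) (by linarith) (by linarith)

theorem gs_nonneg (s : ℝ) (hs : 1 ≤ s) (n : ℕ) : 0 ≤ gs s hs n := by
  rcases eq_or_ne n 0 with rfl | hn
  · simp
  · rw [(gs_mult s hs).multiplicative_factorization _ hn, Finsupp.prod]
    apply prod_nonneg
    intro p hp
    apply gs_pow_nonneg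
    rw [Nat.support_factorization] at hp
    exact Nat.prime_of_mem_primeFactors hp

/-- the summatory function is at most `x ∑_{d ≤ x} g(d)/d`. -/
theorem sum_ts_le (s : ℝ) (hs : 1 ≤ s) (x : ℕ) :
    ∑ m ∈ Icc 1 x, (m.divisors.card : ℝ) ^ s ≤ x * ∑ d ∈ Ioc 0 x, gs s hs d / d := by
  have h1 : ∑ m ∈ Ioc 0 x, (gs s hs * (ζ : ArithmeticFunction ℝ)) m =
      ∑ d ∈ Ioc 0 x, gs s hs d * ((x / d : ℕ) : ℝ) := sum_Ioc_mul_zeta_eq_sum (gs s hs) x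
  rw [gs_zeta] at h1
  have h2 : Icc 1 x = Ioc 0 x := by
    ext m
    rw [mem_Icc, mem_Ioc]
    constructor <;> intro h <;> omega
  rw [h2]
  have h3 : ∑ m ∈ Ioc 0 x, (m.divisors.card : ℝ) ^ s = ∑ m ∈ Ioc 0 x, ts s hs m := rfl
  rw [h3, h1, mul_sum]
  apply sum_le_sum
  intro d hd
  have h4 : ((x / d : ℕ) : ℝ) ≤ x / d := Nat.cast_div_le
  calc gs s hs d * ((x / d : ℕ) : ℝ) ≤ gs s hs d * (x / d) :=
        mul_le_mul_of_nonneg_left h4 (gs_nonneg s hs d)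
    _ = x * (gs s hs d / d) := by ring

/-- `h(n) = g(n)/n`. -/
noncomputable def hf (s : ℝ) (hs : 1 ≤ s) (n : ℕ) : ℝ := gs s hs n / n

theorem hf_one (s : ℝ) (hs : 1 ≤ s) : hf s hs 1 = 1 := by
  rw [hf, (gs_mult s hs).1]
  simp

theorem hf_mul (s : ℝ) (hs : 1 ≤ s) {m n : ℕ} (h : Nat.Coprime m n) :
    hf s hs (m * n) = hf s hs m * hf s hs n := by
  rw [hf, hf, hf, (gs_mult s hs).2 h, Nat.cast_mul, mul_div_mul_comm]

theorem hf_nonneg (s : ℝ) (hs : 1 ≤ s) (n : ℕ) : 0 ≤ hf s hs n :=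
  div_nonneg (gs_nonneg s hs n) (Nat.cast_nonneg n)

/-- summability of `(k+3)^s / 2^k`. -/
theorem summable_aux (s : ℝ) : Summable (fun k : ℕ => ((k : ℝ) + 3) ^ s * (1 / 2) ^ k) := by
  obtain ⟨N, hN⟩ := exists_nat_ge s
  have h1 : Summable (fun k : ℕ => (k : ℝ) ^ N * (1 / 2 : ℝ) ^ k) :=
    summable_pow_mul_geometric_of_norm_lt_one N (by norm_num)
  have h2 : Summable (fun k : ℕ => ((k + 3 : ℕ) : ℝ) ^ N * (1 / 2 : ℝ) ^ (k + 3)) :=
    (summable_nat_add_iff 3).mpr h1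
  have h3 : Summable (fun k : ℕ => 8 * (((k + 3 : ℕ) : ℝ) ^ N * (1 / 2 : ℝ) ^ (k + 3))) :=
    h2.mul_left 8
  refine Summable.of_nonneg_of_le (fun k => by positivity) (fun k => ?_) h3
  have h4 : ((k : ℝ) + 3) ^ s ≤ ((k : ℝ) + 3) ^ N := by
    rw [← Real.rpow_natCast]
    exact Real.rpow_le_rpow_of_exponent_le (by linarith [(Nat.cast_nonneg k : (0 : ℝ) ≤ k)]) hN
  have h5 : (1 / 2 : ℝ) ^ (k + 3) = (1 / 2) ^ k / 8 := by
    rw [pow_add]; norm_num; ring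
  rw [h5]
  push_cast
  calc ((k : ℝ) + 3) ^ s * (1 / 2) ^ k ≤ ((k : ℝ) + 3) ^ N * (1 / 2) ^ k :=
        mul_le_mul_of_nonneg_right h4 (by positivity)
    _ = 8 * (((k : ℝ) + 3) ^ N * ((1 / 2) ^ k / 8)) := by ring

/-- tail constant -/
noncomputable def tc (s : ℝ) : ℝ := ∑' k : ℕ, ((k : ℝ) + 3) ^ s * (1 / 2) ^ k

theorem tc_nonneg (s : ℝ) : 0 ≤ tc s := tsum_nonneg fun k => by positivity

theorem hf_tail_le (s : ℝ) (hs : 1 ≤ s) (p : ℕ) (hp : p.Prime) (k : ℕ) :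
    hf s hs (p ^ (k + 2)) ≤ (((k : ℝ) + 3) ^ s * (1 / 2) ^ k) * (1 / (p : ℝ) ^ 2) := by
  have hp2 : (2 : ℝ) ≤ p := by exact_mod_cast hp.two_le
  have hp0 : (0 : ℝ) < p := by linarith
  have h1 : gs s hs (p ^ (k + 2)) ≤ ((k : ℝ) + 3) ^ s := by
    have h2 := gs_pow_succ s hs p hp (k + 1)
    have h3 : 0 ≤ (((k + 1 : ℕ) : ℝ) + 1) ^ s := by positivity
    have h4 : ((k + 1 : ℕ) : ℝ) + 2 = k + 3 := by push_cast; ring
    rw [h4] at h2
    linarith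
  rw [hf]
  push_cast
  rw [div_le_iff₀ (by positivity)]
  have h5 : (((k : ℝ) + 3) ^ s * (1 / 2) ^ k) * (1 / (p : ℝ) ^ 2) * (p : ℝ) ^ (k + 2) =
      ((k : ℝ) + 3) ^ s * ((1 / 2) ^ k * (p : ℝ) ^ k) := by
    rw [pow_add]
    field_simp
  rw [h5]
  have h6 : 1 ≤ (1 / 2 : ℝ) ^ k * (p : ℝ) ^ k := by
    rw [← mul_pow]
    exact one_le_pow₀ (by linarith)
  calc gs s hs (p ^ (k + 2)) ≤ ((k : ℝ) + 3) ^ s * 1 := by rw [mul_one]; exact h1
    _ ≤ _ := mul_le_mul_of_nonneg_left h6 (by positivity)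

theorem hf_summable (s : ℝ) (hs : 1 ≤ s) (p : ℕ) (hp : p.Prime) :
    Summable (fun k : ℕ => hf s hs (p ^ k)) := by
  rw [← summable_nat_add_iff 2]
  exact Summable.of_nonneg_of_le (fun k => hf_nonneg s hs _) (fun k => hf_tail_le s hs p hp k)
    ((summable_aux s).mul_right _)

theorem hf_tsum_le (s : ℝ) (hs : 1 ≤ s) (p : ℕ) (hp : p.Prime) :
    ∑' k : ℕ, hf s hs (p ^ k) ≤
      Real.exp (((2 : ℝ) ^ s - 1) * (1 / (p : ℝ)) + tc s * (1 / (p : ℝ) ^ 2)) := by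
  have h1 := (hf_summable s hs p hp).sum_add_tsum_nat_add 2
  have h2 : ∑ i ∈ range 2, hf s hs (p ^ i) = 1 + ((2 : ℝ) ^ s - 1) * (1 / (p : ℝ)) := by
    rw [sum_range_succ, sum_range_one, pow_zero, hf_one, hf]
    have h3 := gs_pow_succ s hs p hp 0
    rw [h3]
    push_cast
    rw [zero_add, zero_add, Real.one_rpow, pow_one]
    ring
  have h4 : ∑' k : ℕ, hf s hs (p ^ (k + 2)) ≤ tc s * (1 / (p : ℝ) ^ 2) := by
    rw [tc, ← tsum_mul_right]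
    exact Summable.tsum_le_tsum (fun k => hf_tail_le s hs p hp k)
      ((summable_nat_add_iff 2).mpr (hf_summable s hs p hp)) ((summable_aux s).mul_right _)
  have h5 := Real.add_one_le_exp
    (((2 : ℝ) ^ s - 1) * (1 / (p : ℝ)) + tc s * (1 / (p : ℝ) ^ 2))
  rw [← h1, h2]
  linarith

theorem sum_hf_le (s : ℝ) (hs : 1 ≤ s) (x : ℕ) :
    ∑ d ∈ Ioc 0 x, hf s hs d ≤ ∏ p ∈ (x + 1).primesBelow, ∑' k : ℕ, hf s hs (p ^ k) := by
  have h1 := (EulerProduct.summable_and_hasSum_smoothNumbers_prod_primesBelow_tsum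
    (f := hf s hs) (hf_one s hs) (fun {m n} h => hf_mul s hs h)
    (fun {p} hp => (hf_summable s hs p hp).norm) (x + 1)).2
  have h2 := sum_le_hasSum ((Ioc 0 x).subtype (fun m => m ∈ (x + 1).smoothNumbers))
    (fun i _ => hf_nonneg s hs _) h1
  refine le_trans (le_of_eq ?_) h2
  symm
  apply Finset.sum_subtype_of_mem
  intro d hd
  rw [mem_Ioc] at hd
  exact Nat.mem_smoothNumbers_of_lt hd.1 (by omega)

theorem primesBelow_eq (x : ℕ) : (x + 1).primesBelow = (Icc 1 x).filter Nat.Prime := by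
  ext p
  rw [Nat.mem_primesBelow, mem_filter, mem_Icc]
  constructor
  · rintro ⟨h1, h2⟩
    exact ⟨⟨h2.one_le, by omega⟩, h2⟩
  · rintro ⟨⟨h1, h2⟩, h3⟩
    exact ⟨by omega, h3⟩

/-- `∑ 1/p² ≤ S`. -/
noncomputable def sq : ℝ := ∑' n : ℕ, 1 / (n : ℝ) ^ 2

theorem sum_sq_le (x : ℕ) : ∑ p ∈ (Icc 1 x).filter Nat.Prime, 1 / (p : ℝ) ^ 2 ≤ sq := by
  have h1 : Summable (fun n : ℕ => 1 / (n : ℝ) ^ 2) :=
    Real.summable_one_div_nat_pow.mpr (by norm_num)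
  exact h1.sum_le_tsum _ (fun i _ => by positivity)

/-- moments of the divisor function. -/
theorem moment (s : ℝ) (hs : 1 ≤ s) : ∃ C : ℝ, 0 < C ∧ ∀ x : ℕ, 2 ≤ x →
    ∑ m ∈ Icc 1 x, (m.divisors.card : ℝ) ^ s ≤ C * x * Real.log x ^ ((2 : ℝ) ^ s - 1) := by
  obtain ⟨C₀, hC₀⟩ := SUB.mertens_upper
  refine ⟨Real.exp (((2 : ℝ) ^ s - 1) * C₀ + tc s * sq), Real.exp_pos _, ?_⟩
  intro x hx
  have hs1 : 0 ≤ (2 : ℝ) ^ s - 1 := by
    rw [sub_nonneg]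
    exact Real.one_le_rpow (by norm_num) (by linarith)
  have hlog : 0 < Real.log x := Real.log_pos (by exact_mod_cast (by omega : 1 < x))
  have h1 := sum_ts_le s hs x
  have h2 := sum_hf_le s hs x
  have h3 : ∏ p ∈ (x + 1).primesBelow, ∑' k : ℕ, hf s hs (p ^ k) ≤
      ∏ p ∈ (x + 1).primesBelow,
        Real.exp (((2 : ℝ) ^ s - 1) * (1 / (p : ℝ)) + tc s * (1 / (p : ℝ) ^ 2)) := by
    apply prod_le_prod
    · intro p _
      exact tsum_nonneg fun k => hf_nonneg s hs _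
    · intro p hp
      exact hf_tsum_le s hs p (Nat.mem_primesBelow.mp hp).2
  rw [← Real.exp_sum, primesBelow_eq, sum_add_distrib, ← mul_sum, ← mul_sum] at h3
  have h4 : Real.exp (((2 : ℝ) ^ s - 1) * ∑ p ∈ (Icc 1 x).filter Nat.Prime, 1 / (p : ℝ) +
      tc s * ∑ p ∈ (Icc 1 x).filter Nat.Prime, 1 / (p : ℝ) ^ 2) ≤
      Real.exp (((2 : ℝ) ^ s - 1) * (Real.log (Real.log x) + C₀) + tc s * sq) := by
    apply Real.exp_le_exp.mpr
    have h5 := mul_le_mul_of_nonneg_left (hC₀ x hx) hs1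
    have h6 := mul_le_mul_of_nonneg_left (sum_sq_le x) (tc_nonneg s)
    linarith
  have h7 : Real.exp (((2 : ℝ) ^ s - 1) * (Real.log (Real.log x) + C₀) + tc s * sq) =
      Real.exp (((2 : ℝ) ^ s - 1) * C₀ + tc s * sq) * Real.log x ^ ((2 : ℝ) ^ s - 1) := by
    rw [Real.rpow_def_of_pos hlog, ← Real.exp_add]
    congr 1
    ring
  rw [primesBelow_eq] at h2
  have h8 : ∑ d ∈ Ioc 0 x, gs s hs d / d ≤
      Real.exp (((2 : ℝ) ^ s - 1) * C₀ + tc s * sq) * Real.log x ^ ((2 : ℝ) ^ s - 1) := by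
    rw [← h7]
    exact le_trans (le_trans h2 h3) h4
  calc ∑ m ∈ Icc 1 x, (m.divisors.card : ℝ) ^ s ≤ x * ∑ d ∈ Ioc 0 x, gs s hs d / d := h1
    _ ≤ x * (Real.exp (((2 : ℝ) ^ s - 1) * C₀ + tc s * sq) *
        Real.log x ^ ((2 : ℝ) ^ s - 1)) := mul_le_mul_of_nonneg_left h8 (Nat.cast_nonneg x)
    _ = _ := by ring

end Pool.Agent.helper38.NO
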